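import Pool.Agent.Y171.CE.Defs

/-!
Project CE (helper171): exact statements of the blocks.
-/

set_option autoImplicit false

open Polynomial Matrix

namespace Pool.Agent.Y171.CE

/-- `F` has `p ^ k` elements, and `x` generates it over `F_p`, with minimal polynomial of degree `k`. -/
structure Good (p k : ℕ) (F : Type) [Field F] [Fintype F] [Algebra (ZMod p) F] (x : F) : Prop where
  card : Fintype.card F = p ^ k
  one_le : 1 ≤ k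
  poly : ∃ f : (ZMod p)[X], f.natDegree = k ∧ ∀ g : (ZMod p)[X], aeval x g = 0 ↔ f ∣ g

/-- The list of elements of a window: `s` steps, the rare element, the other steps. -/
def win {p : ℕ} {F : Type} [Field F] [Algebra (ZMod p) F] (x : F) {b : ℕ} (g : SL2 F)
    (w : Fin b × (Fin (7 * b - 1) → NilT p)) : List (SL2 F) :=
  ((List.ofFn w.2).take w.1.1).map (st x) ++ g :: ((List.ofFn w.2).drop w.1.1).map (st x)

/-- The whole list: `n` steps, and then `j` windows. -/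
def wl {p : ℕ} {F : Type} [Field F] [Algebra (ZMod p) F] (x : F) {n j b : ℕ} (g : Fin j → SL2 F)
    (a : (Fin n → NilT p) × (Fin j → Fin b × (Fin (7 * b - 1) → NilT p))) : List (SL2 F) :=
  (List.ofFn a.1).map (st x) ++ (List.ofFn (fun i : Fin j => win x (g i) (a.2 i))).flatten

/-! ### Polynomial matrices -/

def S_NIL : Prop := ∀ (p : ℕ) [Fact p.Prime], Fintype.card (NilT p) = p ^ 2

def S_DG : Prop := ∀ (p : ℕ) [Fact p.Prime],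
  (∀ (N : NilT p) (γ : SL2 (ZMod p)[X]), dg (st X N * γ) ≤ dg γ + 1) ∧
  (∀ (N : NilT p) (γ : SL2 (ZMod p)[X]), dg (γ * st X N) ≤ dg γ + 1) ∧
  (∀ γ : SL2 (ZMod p)[X], dg γ⁻¹ = dg γ) ∧
  (∀ l : List (NilT p), dg (pw (X : (ZMod p)[X]) l) ≤ l.length)

def S_DRIFT : Prop := ∀ (p : ℕ) [Fact p.Prime] (γ : SL2 (ZMod p)[X]),
  ∑ N : NilT p, ((p : ℝ) ^ dg (st X N * γ))⁻¹ ≤ 4 * p * ((p : ℝ) ^ dg γ)⁻¹

def S_PTW : Prop := ∀ (p : ℕ) [Fact p.Prime] (n : ℕ) (γ : SL2 (ZMod p)[X]),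
  Nat.card {h : Fin n → NilT p // pw (X : (ZMod p)[X]) (List.ofFn h) = γ} * p ^ dg γ ≤ (4 * p) ^ n

def S_NDIV : Prop := ∀ (p : ℕ) [Fact p.Prime] (m : (ZMod p)[X]), m ≠ 0 →
  {d : (ZMod p)[X] | d ∣ m}.Finite ∧ {d : (ZMod p)[X] | d ∣ m}.ncard ≤ p * 2 ^ m.natDegree

/-- Matrices which are congruent to one modulo `f`, of degree at most `r`. -/
def cng {p : ℕ} (f : (ZMod p)[X]) (r : ℕ) : Set (SL2 (ZMod p)[X]) :=
  {γ | dg γ ≤ r ∧ ∀ i j : Fin 2, f ∣ γ.1 i j - (1 : Matrix (Fin 2) (Fin 2) (ZMod p)[X]) i j}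

def S_CNT : Prop := ∀ (p : ℕ) [Fact p.Prime] (f : (ZMod p)[X]) (k : ℕ), f.natDegree = k → 1 ≤ k → ∀ r : ℕ,
  (r < k → ∀ γ ∈ cng f r, γ = 1) ∧
  (k ≤ r → (cng f r).Finite ∧ (cng f r).ncard * p ^ (3 * k) ≤ 8 * 4 ^ r * p ^ 3 * (p ^ (r + 2 * k) + p ^ (2 * r)))

def S_RETP : Prop := ∀ (p : ℕ) [Fact p.Prime] (f : (ZMod p)[X]) (k : ℕ), f.natDegree = k → 1 ≤ k →
  ∀ n : ℕ, 3 * k ≤ 2 * n →
  Nat.card {h : Fin (2 * n) → NilT p // ∀ i j : Fin 2,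
      f ∣ (pw (X : (ZMod p)[X]) (List.ofFn h)).1 i j - (1 : Matrix (Fin 2) (Fin 2) (ZMod p)[X]) i j} * p ^ (3 * k)
    ≤ 17 * (2 * n + 1) * 256 ^ n * p ^ 3 * p ^ (4 * n)

def S_LOW : Prop := ∀ (p : ℕ) [Fact p.Prime] (t b : ℕ),
  Nat.card {h : Fin t → NilT p // dg (pw (X : (ZMod p)[X]) (List.ofFn h)) < b} ≤ p ^ (4 * b) * (4 * p) ^ t

def S_RL : Prop := ∀ (p : ℕ) [Fact p.Prime] (n b : ℕ),
  Nat.card {h : Fin (2 * n) → NilT p // pw (X : (ZMod p)[X]) (List.ofFn h) = 1 ∧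
      dg (pw (X : (ZMod p)[X]) ((List.ofFn h).take n)) < b} ≤ p ^ (4 * b) * ((4 * p) ^ n) ^ 2

/-! ### In the finite field -/

def S_EX : Prop := ∀ (p : ℕ) [Fact p.Prime] (k : ℕ), 1 ≤ k →
  ∃ (F : Type) (_ : Field F) (_ : Fintype F) (_ : DecidableEq F) (_ : Algebra (ZMod p) F) (x : F), Good p k F x

def S_RETQ : Prop := ∀ (p : ℕ) [Fact p.Prime] (k : ℕ) (F : Type) [Field F] [Fintype F] [DecidableEq F]
  [Algebra (ZMod p) F] (x : F), Good p k F x → ∀ n : ℕ, 3 * k ≤ 2 * n →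
  Nat.card {h : Fin (2 * n) → NilT p // pw x (List.ofFn h) = 1} * p ^ (3 * k)
    ≤ 17 * (2 * n + 1) * 256 ^ n * p ^ 3 * p ^ (4 * n)

def S_SPAN : Prop := ∀ (p : ℕ) [Fact p.Prime] (k : ℕ) (F : Type) [Field F] [Fintype F] [DecidableEq F]
  [Algebra (ZMod p) F] (x : F), Good p k F x → ∀ (L : AddSubgroup (Fin 2 → F)) (I b : ℕ), 1 ≤ I → 1 ≤ b → I * b ≤ k →
  lampL (p := p) x I b ≤ L → ∀ (l : List (NilT p)) (m : ℕ), b ≤ dg (pw (X : (ZMod p)[X]) (l.take m)) + 1 →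
  p ^ (I * b) ≤ Nat.card (US L (l.map (st x)))

def S_UPPER : Prop := ∀ (p : ℕ) [Fact p.Prime] (F : Type) [Field F] [Fintype F] [DecidableEq F]
  [Algebra (ZMod p) F] (x : F) (I b : ℕ), 1 ≤ I → 1 ≤ b → ∀ l : List (NilT p),
  Nat.card (US (lampL (p := p) x I b) (l.map (st x))) ≤ p ^ (2 * (I * b) + l.length)

def S_LCARD : Prop := ∀ (p : ℕ) [Fact p.Prime] (F : Type) [Field F] [Fintype F] [DecidableEq F]
  [Algebra (ZMod p) F] (x : F) (I b : ℕ), Nat.card (lampL (p := p) x I b) ≤ p ^ (2 * I)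

open Classical in
def S_RET0 : Prop := ∀ (p : ℕ) [Fact p.Prime] (k : ℕ) (F : Type) [Field F] [Fintype F] [DecidableEq F]
  [Algebra (ZMod p) F] (x : F), Good p k F x → ∀ (L : AddSubgroup (Fin 2 → F)), lampL (p := p) x 1 1 ≤ L →
  ∀ c : ℕ, 1 ≤ c → c ≤ k →
  ∑ h : Fin (4 * k) → NilT p, (if pw x (List.ofFn h) = 1 then
      1 / (Nat.card (US L ((List.ofFn h).map (st x))) : ℝ) else 0)
    ≤ 17 * (4 * k + 1) * 256 ^ (2 * k) * p ^ 3 * p ^ (8 * k) / ((p : ℝ) ^ (3 * k) * (p : ℝ) ^ c)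
      + (p : ℝ) ^ (4 * c) * ((4 * p) ^ (2 * k)) ^ 2

/-! ### The measures of lists -/

def S_CONV : Prop := ∀ (F : Type) [Field F] [Fintype F] [DecidableEq F] (L : AddSubgroup (Fin 2 → F))
  (l l' : List (SL2 F)), conv (mL L l) (mL L l') = mL L (l ++ l')

def S_POW : Prop := ∀ (F : Type) [Field F] [Fintype F] [DecidableEq F] (L : AddSubgroup (Fin 2 → F))
  (ι : Type) [Fintype ι] (s : ι → SL2 F) (ω : ι → ℝ) (t : ℕ), 1 ≤ t →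
  cpow (mix L s ω) t = fun g => ∑ h : Fin t → ι, (∏ i : Fin t, ω (h i)) * mL L (List.ofFn (fun i => s (h i))) g

def S_MASS : Prop := ∀ (F : Type) [Field F] [Fintype F] [DecidableEq F] (L : AddSubgroup (Fin 2 → F)),
  (∀ (l : List (SL2 F)) (g : Gp F), 0 ≤ mL L l g) ∧
  (∀ l : List (SL2 F), ∑ g : Gp F, mL L l g = 1) ∧
  (∀ (h : SL2 F) (g : Gp F), mL L [h] g⁻¹ = mL L [h⁻¹] g)

def S_SYM : Prop := ∀ (p : ℕ) [Fact p.Prime] (F : Type) [Field F] [Fintype F] [DecidableEq F]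
  [Algebra (ZMod p) F] (L : AddSubgroup (Fin 2 → F)) (x : F),
  (∀ g : Gp F, 0 ≤ mu0 (p := p) L x g) ∧ (∑ g : Gp F, mu0 (p := p) L x g = 1) ∧
  (∀ g : Gp F, mu0 (p := p) L x g⁻¹ = mu0 (p := p) L x g) ∧
  (∀ g : SL2 F, 0 ≤ muQ (p := p) x g) ∧ (∑ g : SL2 F, muQ (p := p) x g = 1) ∧
  (∀ g : SL2 F, muQ (p := p) x g⁻¹ = muQ (p := p) x g)

def S_MUQ : Prop := ∀ (p : ℕ) [Fact p.Prime] (F : Type) [Field F] [Fintype F] [DecidableEq F]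
  [Algebra (ZMod p) F] (x : F) (n : ℕ) (M : SL2 F),
  cpow (muQ (p := p) x) n M = (Nat.card {h : Fin n → NilT p // pw x (List.ofFn h) = M} : ℝ) / ((p : ℝ) ^ 2) ^ n

open Classical in
def S_TVL : Prop := ∀ (F : Type) [Field F] [Fintype F] [DecidableEq F] (L : AddSubgroup (Fin 2 → F))
  (α : Type) [Fintype α] [Nonempty α] (l : α → List (SL2 F)),
  l1 (fun y : Gp F => 1 / (Fintype.card α : ℝ) * ∑ a : α, mL L (l a) y)
    ≤ 2 * ((Finset.univ.filter (fun a : α => US L (l a) ≠ ⊤)).card / (Fintype.card α : ℝ))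
      + l1 (fun M : SL2 F => ((Finset.univ.filter (fun a : α => (l a).prod = M)).card : ℝ) / (Fintype.card α : ℝ))

open Classical in
def S_QP : Prop := ∀ (p : ℕ) [Fact p.Prime] (F : Type) [Field F] [Fintype F] [DecidableEq F]
  [Algebra (ZMod p) F] (x : F) (n : ℕ) (β : Type) [Fintype β] [Nonempty β] (r : β → SL2 F),
  l1 (fun M : SL2 F => ((Finset.univ.filter (fun a : (Fin n → NilT p) × β => pw x (List.ofFn a.1) * r a.2 = M)).card : ℝ)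
      / (Fintype.card ((Fin n → NilT p) × β) : ℝ))
    ≤ l1 (cpow (muQ (p := p) x) n)

/-! ### Finite groups -/

def S_SPEC : Prop := ∀ (G : Type) [Group G] [Fintype G] [DecidableEq G] (μ : G → ℝ), (∀ g, μ g⁻¹ = μ g) →
  ∀ (V : Submodule ℂ (G → ℂ)), (∀ f ∈ V, T μ f ∈ V) → (∀ f ∈ V, ∀ g : G, (fun x => f (g * x)) ∈ V) →
  ∀ D : ℕ, (∀ V' : Submodule ℂ (G → ℂ), V' ≤ V → (∀ f ∈ V', ∀ g : G, (fun x => f (g * x)) ∈ V') → V' ≠ ⊥ →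
    D ≤ Module.finrank ℂ V') →
  ∀ n : ℕ, 1 ≤ n → ∀ f ∈ V, sq (T μ f) ^ n * D ≤ Fintype.card G * cpow μ (2 * n) 1 * sq f ^ n

def S_EXP : Prop := ∀ (G : Type) [Group G] [Fintype G] [DecidableEq G] (μ : G → ℝ) (S : Finset G) (θ : ℝ),
  (∀ g, 0 ≤ μ g) → (∑ g, μ g = 1) → (∀ g, μ g⁻¹ = μ g) → (∀ g, μ g ≠ 0 → g ∈ S) → 0 ≤ θ →
  (∀ f : G → ℂ, ∑ x, f x = 0 → sq (T μ f) ≤ θ ^ 2 * sq f) →
  ∀ A : Finset G, 2 * A.card ≤ Fintype.card G →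
    (1 - θ) / 2 * (A.card : ℝ) ≤ ((Finset.univ.filter (fun y => y ∉ A ∧ ∃ a ∈ A, ∃ s ∈ S, a * s = y)).card : ℝ)

def S_MIX : Prop := ∀ (G : Type) [Group G] [Fintype G] [DecidableEq G] (μ : G → ℝ) (θ : ℝ),
  (∀ g, 0 ≤ μ g) → (∑ g, μ g = 1) → (∀ g, μ g⁻¹ = μ g) → 0 ≤ θ →
  (∀ f : G → ℂ, ∑ x, f x = 0 → sq (T μ f) ≤ θ * sq f) →
  ∀ m n : ℕ, l1 (cpow μ (m + n)) ^ 2 ≤ Fintype.card G * θ ^ m * cpow μ (2 * n) 1

def S_MONO : Prop := ∀ (G : Type) [Group G] [Fintype G] [DecidableEq G] (μ : G → ℝ),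
  (∀ g, 0 ≤ μ g) → (∑ g, μ g = 1) → ∀ s t : ℕ, s ≤ t → l1 (cpow μ t) ≤ l1 (cpow μ s)

def S_DIMQ : Prop := ∀ (F : Type) [Field F] [Fintype F] [DecidableEq F], (2 : F) ≠ 0 →
  ∀ V : Submodule ℂ (SL2 F → ℂ), (∀ f ∈ V, ∀ g : SL2 F, (fun x => f (g * x)) ∈ V) → V ≠ ⊥ →
  (∀ f ∈ V, ∑ x, f x = 0) → Fintype.card F - 1 ≤ 2 * Module.finrank ℂ V

def S_DIMN : Prop := ∀ (F : Type) [Field F] [Fintype F] [DecidableEq F],
  ∀ V : Submodule ℂ (Gp F → ℂ), (∀ f ∈ V, ∀ g : Gp F, (fun x => f (g * x)) ∈ V) → V ≠ ⊥ →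
  (∀ f ∈ V, ∀ x : Gp F, ∑ v : Fin 2 → F, f (⟨v, 1⟩ * x) = 0) → Fintype.card F ^ 2 - 1 ≤ Module.finrank ℂ V

def S_CSL : Prop := ∀ (F : Type) [Field F] [Fintype F] [DecidableEq F],
  Fintype.card F ^ 3 ≤ 2 * Fintype.card (SL2 F) ∧ Fintype.card (SL2 F) ≤ Fintype.card F ^ 3 ∧
  Fintype.card (Gp F) = Fintype.card F ^ 2 * Fintype.card (SL2 F)

/-! ### Spectral gaps -/

def S_GAPQ : Prop := ∀ (p : ℕ) [Fact p.Prime], 2 ^ 1000 ≤ p → ∃ k0 : ℕ, ∀ k : ℕ, k0 ≤ k → 2 ∣ k →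
  ∀ (F : Type) [Field F] [Fintype F] [DecidableEq F] [Algebra (ZMod p) F] (x : F), Good p k F x →
  ∀ f : SL2 F → ℂ, ∑ M, f M = 0 → sq (T (muQ (p := p) x) f) ≤ (1 / 2) ^ 600 * sq f

def S_GAPG : Prop := ∀ (p : ℕ) [Fact p.Prime], 2 ^ 1000 ≤ p → ∃ k0 : ℕ, ∀ k : ℕ, k0 ≤ k → 8 ∣ k →
  ∀ (F : Type) [Field F] [Fintype F] [DecidableEq F] [Algebra (ZMod p) F] (x : F), Good p k F x →
  ∀ L : AddSubgroup (Fin 2 → F), lampL (p := p) x 1 1 ≤ L →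
  ∀ f : Gp F → ℂ, ∑ g, f g = 0 → sq (T (mu0 (p := p) L x) f) ≤ (1 / 2) ^ 2 * sq f

/-! ### Random group elements -/

def S_RG : Prop := ∀ (F : Type) [Field F] [Fintype F] [DecidableEq F] (U W : AddSubgroup (Fin 2 → F)),
  ∑ h : SL2 F, ((Fintype.card F : ℝ) ^ 2 / Nat.card (U ⊔ W.map (act h) : AddSubgroup (Fin 2 → F)) - 1)
    ≤ Fintype.card (SL2 F) * (((Fintype.card F : ℝ) ^ 2 / Nat.card U - 1) / Nat.card W)

open Classical in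
def S_RGJ : Prop := ∀ (F : Type) [Field F] [Fintype F] [DecidableEq F] (L : AddSubgroup (Fin 2 → F))
  (j : ℕ) (A : List (SL2 F)) (B C : Fin j → List (SL2 F)) (w : ℕ), 1 ≤ w → (∀ i, w ≤ Nat.card (US L (C i))) →
  (Finset.univ.filter (fun g : Fin j → SL2 F =>
      US L (A ++ (List.ofFn (fun i : Fin j => B i ++ g i :: C i)).flatten) ≠ ⊤)).card * w ^ j
    ≤ Fintype.card (SL2 F) ^ j * Fintype.card F ^ 2

/-! ### Slow and fast -/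

def S_SLOW : Prop := ∀ (p : ℕ) [Fact p.Prime] (F : Type) [Field F] [Fintype F] [DecidableEq F]
  [Algebra (ZMod p) F] (x : F) (I b : ℕ), 1 ≤ I → 1 ≤ b → ∀ (j : ℕ) (ρ : ℝ) (g : Fin j → SL2 F), 0 ≤ ρ → j * ρ ≤ 1 →
  ∀ t : ℕ, 1 ≤ t →
  2 * ((1 - j * ρ) ^ t - (p : ℝ) ^ (3 * t + 2 * (I * b)) / Fintype.card (Gp F))
    ≤ l1 (cpow (muR (p := p) (lampL (p := p) x I b) x ρ g) t)

def S_WIN : Prop := ∀ (p : ℕ) [Fact p.Prime] (F : Type) [Field F] [Fintype F] [DecidableEq F]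
  [Algebra (ZMod p) F] (x : F) (L : AddSubgroup (Fin 2 → F)) (n j b : ℕ), 1 ≤ n → 1 ≤ b →
  ∀ (ρ : ℝ) (g : Fin j → SL2 F), 0 ≤ ρ → j * ρ ≤ 1 →
  l1 (cpow (muR (p := p) L x ρ g) (n + 7 * b * j))
    ≤ 2 * (1 - (1 - j * ρ) ^ (n + (7 * b - 1) * j) * (b * ρ) ^ j)
      + (1 - j * ρ) ^ (n + (7 * b - 1) * j) * (b * ρ) ^ j
        * l1 (fun y : Gp F => 1 / (Fintype.card ((Fin n → NilT p) × (Fin j → Fin b × (Fin (7 * b - 1) → NilT p))) : ℝ)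
            * ∑ a : (Fin n → NilT p) × (Fin j → Fin b × (Fin (7 * b - 1) → NilT p)), mL L (wl x g a) y)

open Classical in
def S_BAD : Prop := ∀ (p : ℕ) [Fact p.Prime] (k : ℕ) (F : Type) [Field F] [Fintype F] [DecidableEq F]
  [Algebra (ZMod p) F] (x : F), Good p k F x → ∀ (L : AddSubgroup (Fin 2 → F)) (I b : ℕ), 1 ≤ I → 1 ≤ b → I * b ≤ k →
  lampL (p := p) x I b ≤ L →
  (Finset.univ.filter (fun w : Fin b × (Fin (7 * b - 1) → NilT p) =>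
      Nat.card (US L (((List.ofFn w.2).drop w.1.1).map (st x))) < p ^ (I * b))).card * p ^ b
    ≤ 1024 ^ b * Fintype.card (Fin b × (Fin (7 * b - 1) → NilT p))

def S_FASTB : Prop := ∀ (p : ℕ) [Fact p.Prime] (k : ℕ) (F : Type) [Field F] [Fintype F] [DecidableEq F]
  [Algebra (ZMod p) F] (x : F), Good p k F x → ∀ (L : AddSubgroup (Fin 2 → F)) (I b : ℕ), 1 ≤ I → 1 ≤ b → I * b ≤ k →
  lampL (p := p) x I b ≤ L → ∀ n j : ℕ,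
  ∃ g : Fin j → SL2 F,
    l1 (fun y : Gp F => 1 / (Fintype.card ((Fin n → NilT p) × (Fin j → Fin b × (Fin (7 * b - 1) → NilT p))) : ℝ)
            * ∑ a : (Fin n → NilT p) × (Fin j → Fin b × (Fin (7 * b - 1) → NilT p)), mL L (wl x g a) y)
      ≤ 2 * (j * ((1024 : ℝ) / p) ^ b + (p : ℝ) ^ (2 * k) / (p : ℝ) ^ (I * b * j)) + l1 (cpow (muQ (p := p) x) n)

/-! ### No cut-off -/

open Filter Topology in
def S_NOCUT : Prop := ∀ (d : ℕ → ℕ → ℝ) (c : ℝ) (A B n0 : ℕ), 0 < c → 0 < A → 101 * A ≤ 100 * B →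
  (∀ n s t, s ≤ t → d n t ≤ d n s) →
  (∀ᶠ n in atTop, d n (A * (n + n0)) ≤ 1 - c) → (∀ᶠ n in atTop, c ≤ d n (B * (n + n0))) →
  ¬ ∃ t : ℕ → ℝ, Tendsto t atTop atTop ∧ ∀ ε : ℝ, 0 < ε → ε < 1 →
    Tendsto (fun n => d n ⌈(1 + ε) * t n⌉₊) atTop (𝓝 0) ∧ Tendsto (fun n => d n ⌊(1 - ε) * t n⌋₊) atTop (𝓝 1)

end Pool.Agent.Y171.CE
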