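import Pool.Agent.Y171.CE.Asm3
import Pool.Agent.Y495.CE.DG
import Pool.Agent.Y495.CE.EX
import Pool.Agent.Y344.CE.Drift
import Pool.Agent.Y310.CE.Ptw
import Pool.Agent.Y50.CE.Ndiv
import Pool.Agent.Y542.CE.Cnt
import Pool.Agent.Y629.CE.Retp
import Pool.Agent.Y240.CE.Span
import Pool.Agent.Y930.CE.Ret0
import Pool.Agent.Y467.CE.Conv
import Pool.Agent.Y467.CE.Pow
import Pool.Agent.Y467.CE.Tvl
import Pool.Agent.Y467.CE.Mix
import Pool.Agent.Y467.CE.NoCut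
import Pool.Agent.Y249.CE.Spec
import Pool.Agent.Y407.CE.Exp
import Pool.Agent.Y286.CE.DimQ
import Pool.Agent.Y362.CE.Dimn
import Pool.Agent.Y784.CE.GapQ
import Pool.Agent.Y86.CE.Gapg
import Pool.Agent.Y475.CE.RG
import Pool.Agent.Y138.CE.Slow
import Pool.Agent.Y65.CE.Win
import Pool.Agent.Y486.CE.Bad
import Pool.Agent.Y960.CE.FastB

/-!
Project CE (helper171): all blocks together.
-/

set_option autoImplicit false

open Polynomial Matrix Filter Topology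
open scoped Pointwise

namespace Pool.Agent.Y171.CE

theorem top (hUpper : S_UPPER) (hLcard : S_LCARD) :
    ¬ (∀ r : ℝ, 0 < r →
  ∀ (G : ℕ → Type) [∀ n, Group (G n)] [∀ n, Fintype (G n)] [∀ n, DecidableEq (G n)]
    (S : ∀ n, Finset (G n)) (p : ∀ n, G n → ℝ),
    Tendsto (fun n => Fintype.card (G n)) atTop atTop →
    (∀ n, (1 : G n) ∈ S n) →
    (∀ n, ∀ s ∈ S n, s⁻¹ ∈ S n) →
    (∃ c : ℝ, 0 < c ∧ ∀ n, ∀ A : Finset (G n),
        2 * A.card ≤ Fintype.card (G n) →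
        c * (A.card : ℝ) ≤ (((A * S n) \ A).card : ℝ)) →
    (∀ n, ∀ g : G n, 0 ≤ p n g) →
    (∀ n, ∑ g : G n, p n g = 1) →
    (∀ n, ∀ s ∈ S n, 1 / r ≤ p n s) →
    (∀ n, ((Finset.univ.filter (fun g : G n => p n g ≠ 0)).card : ℝ) ≤ r) →
    ∃ t : ℕ → ℝ, Tendsto t atTop atTop ∧
      ∀ ε : ℝ, 0 < ε → ε < 1 →
        Tendsto (fun n => (1 / 2 : ℝ) * ∑ g : G n,
          |(fun q : G n → ℝ => fun x : G n => ∑ h : G n, q h * p n (h⁻¹ * x))^[⌈(1 + ε) * t n⌉₊]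
              (fun x : G n => if x = 1 then (1 : ℝ) else 0) g
            - 1 / (Fintype.card (G n) : ℝ)|) atTop (𝓝 0) ∧
        Tendsto (fun n => (1 / 2 : ℝ) * ∑ g : G n,
          |(fun q : G n → ℝ => fun x : G n => ∑ h : G n, q h * p n (h⁻¹ * x))^[⌊(1 - ε) * t n⌋₊]
              (fun x : G n => if x = 1 then (1 : ℝ) else 0) g
            - 1 / (Fintype.card (G n) : ℝ)|) atTop (𝓝 1)) := by
  have hNil : S_NIL := Pool.Agent.Y495.CE.nil
  have hDg : S_DG := Pool.Agent.Y495.CE.dgs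
  have hEx : S_EX := Pool.Agent.Y495.CE.ex
  have hCsl : S_CSL := Pool.Agent.Y495.CE.csl
  have hDrift : S_DRIFT := Pool.Agent.Y344.CE.Drift.drift
  have hPtw : S_PTW := Pool.Agent.Y310.CE.ptw hNil hDg hDrift
  have hLow : S_LOW := Pool.Agent.Y310.CE.low hPtw
  have hRl : S_RL := Pool.Agent.Y310.CE.rl hDg hPtw
  have hNdiv : S_NDIV := Pool.Agent.Y50.CE.ndiv
  have hCnt : S_CNT := Pool.Agent.Y542.CE.cnt hNdiv
  have hRetp : S_RETP := Pool.Agent.Y629.CE.retp hDg hPtw hCnt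
  have hRetq : S_RETQ := Pool.Agent.Y629.CE.retq hRetp
  have hSpan : S_SPAN := Pool.Agent.Y240.CE.span hDg
  have hRet0 : S_RET0 := Pool.Agent.Y930.CE.ret0 hRetq hRl hSpan
  have hConv : S_CONV := Pool.Agent.Y467.CE.cnv
  have hMass : S_MASS := Pool.Agent.Y467.CE.mass
  have hPow : S_POW := Pool.Agent.Y467.CE.pow hConv
  have hMuq : S_MUQ := Pool.Agent.Y467.CE.muq
  have hQp : S_QP := Pool.Agent.Y467.CE.qp hNil hMuq
  have hTvl : S_TVL := Pool.Agent.Y467.CE.tvl hMass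
  have hSym : S_SYM := Pool.Agent.Y467.CE.sym hNil hMass
  have hMix : S_MIX := Pool.Agent.Y467.CE.mix'
  have hNocut : S_NOCUT := Pool.Agent.Y467.CE.nocut
  have hSpec : S_SPEC := Pool.Agent.Y249.CE.spec
  have hExp : S_EXP := Pool.Agent.Y171.CE.exp
  have hMono : S_MONO := Pool.Agent.Y171.CE.mono
  have hDimq : S_DIMQ := Pool.Agent.Y286.CE.dimq
  have hDimn : S_DIMN := Pool.Agent.Y362.CE.dimn
  have hGapq : S_GAPQ := Pool.Agent.Y784.CE.gapq hNil hSym hMuq hRetq hCsl hSpec hDimq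
  have hGapg : S_GAPG := Pool.Agent.Y86.CE.gapg hNil hSym hMass hPow hRet0 hCsl hSpec hDimn hGapq
  have hRg : S_RG := Pool.Agent.Y475.CE.rg
  have hRgj : S_RGJ := Pool.Agent.Y475.CE.rgj hRg
  have hSlow : S_SLOW := Pool.Agent.Y138.CE.slow hNil hMass hPow hUpper
  have hWin : S_WIN := Pool.Agent.Y65.CE.win' hNil hMass hConv hPow
  have hBad : S_BAD := Pool.Agent.Y486.CE.bad hNil hLow hSpan
  have hFast : S_FASTB := Pool.Agent.Y960.CE.fastb hNil hTvl hQp hRgj hBad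
  exact assemble hNil hMass hSlow hCsl hWin hFast hMix hGapq hGapg hSym hMuq hRetq hEx hLcard hExp hMono hNocut

end Pool.Agent.Y171.CE
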