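import Pool.Agent.Y171.CE.Stm

/-!
Project CE (helper171): assembly, part 1: the hypotheses (H) for the walk with rare steps.
-/

set_option autoImplicit false
set_option linter.unusedSectionVars false

open Polynomial Matrix

namespace Pool.Agent.Y171.CE

section

variable {p : ℕ} [Fact p.Prime] {F : Type} [Field F] [Fintype F] [DecidableEq F] [Algebra (ZMod p) F]

theorem US_one (L : AddSubgroup (Fin 2 → F)) (h : SL2 F) : US L [h] = L ⊔ L.map (act h) := rfl

theorem le_US (L : AddSubgroup (Fin 2 → F)) (l : List (SL2 F)) : L ≤ US L l := by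
  cases l with
  | nil => exact le_refl _
  | cons g l => exact le_sup_left

theorem act_inv_act (h : SL2 F) (v : Fin 2 → F) : act h⁻¹ (act h v) = v := by
  rw [← act_mul, inv_mul_cancel, act_one]

theorem act_act_inv (h : SL2 F) (v : Fin 2 → F) : act h (act h⁻¹ v) = v := by
  rw [← act_mul, mul_inv_cancel, act_one]

/-- The generating set. -/
noncomputable def SS (L : AddSubgroup (Fin 2 → F)) (x : F) : Finset (Gp F) := by
  classical
  exact Finset.univ.filter (fun y : Gp F => ∃ N : NilT p, y.m = st x N ∧ y.v ∈ US L [st x N])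

theorem mem_SS (L : AddSubgroup (Fin 2 → F)) (x : F) (y : Gp F) :
    y ∈ SS (p := p) L x ↔ ∃ N : NilT p, y.m = st x N ∧ y.v ∈ US L [st x N] := by
  unfold SS
  simp

/-- The zero matrix. -/
def nz : NilT p := ⟨(0, 0, 0), by simp⟩

theorem st_nz (x : F) : st x (nz (p := p)) = 1 := by
  apply Subtype.ext
  ext i j
  fin_cases i <;> fin_cases j <;> simp [st, nz]

/-- The negative. -/
def ng (N : NilT p) : NilT p := ⟨(-N.1.1, -N.1.2.1, -N.1.2.2), by
  have h := N.2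
  ring_nf
  ring_nf at h
  exact h⟩

theorem st_ng (x : F) (N : NilT p) : st x (ng N) = (st x N)⁻¹ := by
  rw [eq_comm, inv_eq_iff_mul_eq_one]
  apply Subtype.ext
  have h := N.2
  have h2 : algebraMap (ZMod p) F N.1.1 * algebraMap (ZMod p) F N.1.1
      + algebraMap (ZMod p) F N.1.2.1 * algebraMap (ZMod p) F N.1.2.2 = 0 := by
    rw [← map_mul, ← map_mul, ← map_add, h, map_zero]
  change (st x N).1 * (st x (ng N)).1 = 1
  ext i j
  fin_cases i <;> fin_cases j <;>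
    simp [st, ng, Matrix.mul_apply, Fin.sum_univ_two] <;> first | ring1 | linear_combination (-x ^ 2) * h2

theorem one_mem_SS (L : AddSubgroup (Fin 2 → F)) (x : F) : (1 : Gp F) ∈ SS (p := p) L x := by
  rw [mem_SS]
  exact ⟨nz, (st_nz x).symm, AddSubgroup.zero_mem _⟩

theorem inv_mem_SS (L : AddSubgroup (Fin 2 → F)) (x : F) (y : Gp F) (hy : y ∈ SS (p := p) L x) :
    y⁻¹ ∈ SS (p := p) L x := by
  rw [mem_SS] at hy ⊢
  obtain ⟨N, h1, h2⟩ := hy
  refine ⟨ng N, ?_, ?_⟩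
  · rw [Gp.inv_m, h1, st_ng]
  · rw [Gp.inv_v, h1, US_one]
    rw [US_one] at h2
    apply AddSubgroup.neg_mem
    rw [st_ng]
    rw [AddSubgroup.mem_sup] at h2 ⊢
    obtain ⟨a, ha, c, hc, hac⟩ := h2
    obtain ⟨c', hc', rfl⟩ := AddSubgroup.mem_map.mp hc
    refine ⟨c', hc', act (st x N)⁻¹ a, AddSubgroup.mem_map.mpr ⟨a, ha, rfl⟩, ?_⟩
    rw [← hac, map_add, act_inv_act, add_comm]

theorem card_US_one (L : AddSubgroup (Fin 2 → F)) (h : SL2 F) :
    Nat.card (US L [h]) ≤ Nat.card L * Nat.card L := by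
  rw [US_one]
  have h1 : Nat.card (L ⊔ L.map (act h) : AddSubgroup (Fin 2 → F)) ≤ Nat.card L * Nat.card (L.map (act h)) := by
    have h2 : Function.Surjective (fun z : L × (L.map (act h)) =>
        (⟨z.1.1 + z.2.1, AddSubgroup.add_mem_sup z.1.2 z.2.2⟩ : (L ⊔ L.map (act h) : AddSubgroup (Fin 2 → F)))) := by
      rintro ⟨y, hy⟩
      obtain ⟨a, ha, c, hc, hac⟩ := AddSubgroup.mem_sup.mp hy
      exact ⟨(⟨a, ha⟩, ⟨c, hc⟩), Subtype.ext hac⟩
    have h3 := Nat.card_le_card_of_surjective _ h2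
    rwa [Nat.card_prod] at h3
  have h4 : Nat.card (L.map (act h)) ≤ Nat.card L := by
    have h5 : Function.Surjective (fun z : L => (⟨act h z.1, AddSubgroup.mem_map.mpr ⟨z.1, z.2, rfl⟩⟩ : L.map (act h))) := by
      rintro ⟨y, hy⟩
      obtain ⟨a, ha, hac⟩ := AddSubgroup.mem_map.mp hy
      exact ⟨⟨a, ha⟩, Subtype.ext hac⟩
    exact Nat.card_le_card_of_surjective _ h5
  exact h1.trans (Nat.mul_le_mul_left _ h4)

theorem mL_one (L : AddSubgroup (Fin 2 → F)) (h : SL2 F) (y : Gp F) (h1 : y.m = h) (h2 : y.v ∈ US L [h]) :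
    mL L [h] y = 1 / (Nat.card (US L [h]) : ℝ) := by
  unfold mL
  rw [if_pos]
  exact ⟨by simpa using h1, h2⟩

theorem mL_zero (L : AddSubgroup (Fin 2 → F)) (h : SL2 F) (y : Gp F) (h1 : ¬ (y.m = h ∧ y.v ∈ US L [h])) :
    mL L [h] y = 0 := by
  unfold mL
  rw [if_neg]
  intro h2
  exact h1 ⟨by simpa using h2.1, h2.2⟩

theorem mL_nonneg' (L : AddSubgroup (Fin 2 → F)) (l : List (SL2 F)) (y : Gp F) : 0 ≤ mL L l y := by
  unfold mL
  split_ifs
  · positivity
  · exact le_refl _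

/-- The weights of the walk. -/
noncomputable def wt (p j : ℕ) (ρ : ℝ) : NilT p ⊕ Fin j → ℝ :=
  Sum.elim (fun _ => (1 - j * ρ) / (p : ℝ) ^ 2) (fun _ => ρ)

theorem wt_nonneg (j : ℕ) (ρ : ℝ) (h0 : 0 ≤ ρ) (h1 : j * ρ ≤ 1) (i : NilT p ⊕ Fin j) : 0 ≤ wt p j ρ i := by
  unfold wt
  rcases i with i | i
  · simp only [Sum.elim_inl]
    exact div_nonneg (by linarith) (by positivity)
  · simpa using h0

theorem wt_sum (hN : S_NIL) (j : ℕ) (ρ : ℝ) : ∑ i : NilT p ⊕ Fin j, wt p j ρ i = 1 := by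
  have hp : (p : ℝ) ≠ 0 := by
    have := (Fact.out : p.Prime).pos
    positivity
  unfold wt
  rw [Fintype.sum_sum_type]
  simp only [Sum.elim_inl, Sum.elim_inr, Finset.sum_const, Finset.card_univ, hN p, Fintype.card_fin, nsmul_eq_mul]
  push_cast
  field_simp
  ring

theorem muR_nonneg (L : AddSubgroup (Fin 2 → F)) (x : F) {j : ℕ} (ρ : ℝ) (g : Fin j → SL2 F) (h0 : 0 ≤ ρ)
    (h1 : j * ρ ≤ 1) (y : Gp F) : 0 ≤ muR (p := p) L x ρ g y :=
  Finset.sum_nonneg (fun i _ => mul_nonneg (wt_nonneg j ρ h0 h1 i) (mL_nonneg' _ _ _))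

theorem muR_sum (hN : S_NIL) (hM : S_MASS) (L : AddSubgroup (Fin 2 → F)) (x : F) {j : ℕ} (ρ : ℝ) (g : Fin j → SL2 F) :
    ∑ y : Gp F, muR (p := p) L x ρ g y = 1 := by
  unfold muR mix
  rw [Finset.sum_comm]
  have h : ∀ i : NilT p ⊕ Fin j, ∑ y : Gp F, (Sum.elim (fun _ => (1 - j * ρ) / (p : ℝ) ^ 2) (fun _ => ρ)) i
      * mL L [Sum.elim (fun N : NilT p => st x N) g i] y = wt p j ρ i := by
    intro i
    rw [← Finset.mul_sum, (hM F L).2.1, mul_one]
    rfl
  rw [Finset.sum_congr rfl (fun i _ => h i), wt_sum hN]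

theorem muR_lower (L : AddSubgroup (Fin 2 → F)) (x : F) {j : ℕ} (ρ : ℝ) (g : Fin j → SL2 F) (h0 : 0 ≤ ρ)
    (h1 : j * ρ ≤ 1 / 2) (c : ℕ) (hc : Nat.card L ≤ c) (y : Gp F) (hy : y ∈ SS (p := p) L x) :
    1 / (2 * (p : ℝ) ^ 2 * (c : ℝ) ^ 2) ≤ muR (p := p) L x ρ g y := by
  rw [mem_SS] at hy
  obtain ⟨N, h2, h3⟩ := hy
  have hp : (0 : ℝ) < (p : ℝ) ^ 2 := by
    have := (Fact.out : p.Prime).pos
    positivity
  have h4 : wt p j ρ (Sum.inl N) * mL L [st x N] y ≤ muR (p := p) L x ρ g y := by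
    have := Finset.single_le_sum (f := fun i : NilT p ⊕ Fin j => wt p j ρ i
      * mL L [Sum.elim (fun N : NilT p => st x N) g i] y)
      (fun i _ => mul_nonneg (wt_nonneg j ρ h0 (by linarith) i) (mL_nonneg' _ _ _)) (Finset.mem_univ (Sum.inl N))
    exact this
  refine le_trans ?_ h4
  rw [mL_one L _ y h2 h3]
  have h5 : (Nat.card (US L [st x N]) : ℝ) ≤ (c : ℝ) ^ 2 := by
    have h6 := card_US_one L (st x N)
    have h7 : Nat.card (US L [st x N]) ≤ c * c := h6.trans (Nat.mul_le_mul hc hc)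
    calc (Nat.card (US L [st x N]) : ℝ) ≤ ((c * c : ℕ) : ℝ) := by exact_mod_cast h7
      _ = (c : ℝ) ^ 2 := by push_cast; ring
  have h8 : (0 : ℝ) < (Nat.card (US L [st x N]) : ℝ) := by
    exact_mod_cast Nat.card_pos
  have h9 : 1 / 2 / (p : ℝ) ^ 2 ≤ wt p j ρ (Sum.inl N) := by
    unfold wt
    simp only [Sum.elim_inl]
    gcongr
    linarith
  calc 1 / (2 * (p : ℝ) ^ 2 * (c : ℝ) ^ 2) = (1 / 2 / (p : ℝ) ^ 2) * (1 / (c : ℝ) ^ 2) := by ring
    _ ≤ (1 / 2 / (p : ℝ) ^ 2) * (1 / (Nat.card (US L [st x N]) : ℝ)) := by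
        apply mul_le_mul_of_nonneg_left _ (by positivity)
        exact one_div_le_one_div_of_le h8 h5
    _ ≤ _ := mul_le_mul_of_nonneg_right h9 (by positivity)

open Classical in
theorem muR_supp (hN : S_NIL) (L : AddSubgroup (Fin 2 → F)) (x : F) {j : ℕ} (ρ : ℝ) (g : Fin j → SL2 F)
    (c : ℕ) (hc : Nat.card L ≤ c) :
    (Finset.univ.filter (fun y : Gp F => muR (p := p) L x ρ g y ≠ 0)).card ≤ (p ^ 2 + j) * c ^ 2 := by
  have h1 : (Finset.univ.filter (fun y : Gp F => muR (p := p) L x ρ g y ≠ 0)) ⊆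
      Finset.univ.biUnion (fun i : NilT p ⊕ Fin j => Finset.univ.filter (fun y : Gp F =>
        y.m = Sum.elim (fun N : NilT p => st x N) g i ∧ y.v ∈ US L [Sum.elim (fun N : NilT p => st x N) g i])) := by
    intro y hy
    rw [Finset.mem_filter] at hy
    by_contra h2
    apply hy.2
    unfold muR mix
    apply Finset.sum_eq_zero
    intro i _
    rw [mL_zero, mul_zero]
    intro h3
    apply h2
    rw [Finset.mem_biUnion]
    exact ⟨i, Finset.mem_univ _, Finset.mem_filter.mpr ⟨Finset.mem_univ _, h3⟩⟩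
  refine (Finset.card_le_card h1).trans ?_
  refine (Finset.card_biUnion_le_card_mul _ _ (c ^ 2) ?_).trans ?_
  · intro i _
    set h := Sum.elim (fun N : NilT p => st x N) g i with hh
    have h2 : (Finset.univ.filter (fun y : Gp F => y.m = h ∧ y.v ∈ US L [h])).card ≤ Nat.card (US L [h]) := by
      rw [← Nat.card_eq_finsetCard]
      refine Nat.card_le_card_of_injective
        (fun y : {y // y ∈ Finset.univ.filter (fun y : Gp F => y.m = h ∧ y.v ∈ US L [h])} =>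
          (⟨y.1.v, (Finset.mem_filter.mp y.2).2.2⟩ : US L [h])) ?_
      intro y z hyz
      have h3 : y.1.v = z.1.v := congrArg (fun w : US L [h] => w.1) hyz
      exact Subtype.ext (Gp.ext h3 ((Finset.mem_filter.mp y.2).2.1.trans (Finset.mem_filter.mp z.2).2.1.symm))
    refine h2.trans ((card_US_one L h).trans ?_)
    rw [pow_two]
    exact Nat.mul_le_mul hc hc
  · rw [Finset.card_univ, Fintype.card_sum, hN p, Fintype.card_fin]

theorem mu0_supp (L : AddSubgroup (Fin 2 → F)) (x : F) (y : Gp F) (hy : mu0 (p := p) L x y ≠ 0) :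
    y ∈ SS (p := p) L x := by
  rw [mem_SS]
  by_contra h
  push_neg at h
  apply hy
  unfold mu0 mix
  apply Finset.sum_eq_zero
  intro N _
  rw [mL_zero, mul_zero]
  rintro ⟨h1, h2⟩
  exact h N h1 h2

theorem lamp_one_le (x : F) (I b : ℕ) (hI : 1 ≤ I) : lampL (p := p) x 1 1 ≤ lampL (p := p) x I b := by
  unfold lampL
  rw [AddSubgroup.closure_le]
  rintro v ⟨i, hi, e, rfl⟩
  apply AddSubgroup.subset_closure
  refine ⟨0, by omega, e, ?_⟩
  have : i = 0 := by omega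
  subst this
  simp

/-- Vertex expansion of the generating set. -/
theorem expan (hE : S_EXP) (hS : S_SYM) (L : AddSubgroup (Fin 2 → F)) (x : F)
    (hgap : ∀ f : Gp F → ℂ, ∑ g, f g = 0 → sq (T (mu0 (p := p) L x) f) ≤ (1 / 2) ^ 2 * sq f)
    (A : Finset (Gp F)) (hA : 2 * A.card ≤ Fintype.card (Gp F)) :
    (1 / 4 : ℝ) * (A.card : ℝ) ≤ (((Finset.univ.filter
      (fun y => y ∉ A ∧ ∃ a ∈ A, ∃ s ∈ SS (p := p) L x, a * s = y)).card : ℕ) : ℝ) := by
  have h := hE (Gp F) (mu0 (p := p) L x) (SS (p := p) L x) (1 / 2) (hS p F L x).1 (hS p F L x).2.1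
    (hS p F L x).2.2.1 (fun g hg => mu0_supp L x g hg) (by norm_num) hgap A hA
  norm_num at h ⊢
  exact h

end

end Pool.Agent.Y171.CE
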