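import Pool.Agent.Y171.CE.Asm1

/-!
Project CE (helper171): assembly, part 2: asymptotics.
-/

set_option autoImplicit false
set_option linter.unusedSectionVars false

open Polynomial Matrix Filter Topology

namespace Pool.Agent.Y171.CE

theorem e3 (b : ℕ) : (1 / 3 : ℝ) ≤ ((b : ℝ) / (b + 1)) ^ b := by
  rcases Nat.eq_zero_or_pos b with rfl | hb
  · norm_num
  · have hb' : (0 : ℝ) < b := by exact_mod_cast hb
    have h1 : (1 / (b : ℝ) + 1) ^ b ≤ 3 := by
      have h2 := Real.add_one_le_exp (1 / (b : ℝ))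
      calc (1 / (b : ℝ) + 1) ^ b ≤ (Real.exp (1 / (b : ℝ))) ^ b := by
            apply pow_le_pow_left₀ (by positivity) h2
        _ = Real.exp 1 := by
            rw [← Real.exp_nat_mul]
            congr 1
            field_simp
        _ ≤ 3 := by
            have := Real.exp_one_lt_d9
            linarith
    have h3 : ((b : ℝ) / (b + 1)) = (1 / (b : ℝ) + 1)⁻¹ := by
      field_simp
      ring
    rw [h3, inv_pow, one_div]
    exact inv_anti₀ (by positivity) h1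

theorem e4 (b m : ℕ) : (1 / 3 : ℝ) ^ m ≤ ((b : ℝ) / (b + 1)) ^ (m * b) := by
  rw [mul_comm m b, pow_mul]
  exact pow_le_pow_left₀ (by norm_num) (e3 b) m

theorem e5 (b : ℕ) : (1 : ℝ) - ((50 : ℕ) : ℝ) * (1 / (50 * ((b : ℝ) + 1))) = (b : ℝ) / (b + 1) := by
  have : (b : ℝ) + 1 ≠ 0 := by positivity
  field_simp
  push_cast
  ring

theorem slow_ev (hN : S_SLOW) (hC : S_CSL) (p : ℕ) [Fact p.Prime] : ∀ᶠ b : ℕ in atTop,
    ∀ (F : Type) [Field F] [Fintype F] [DecidableEq F] [Algebra (ZMod p) F] (x : F), Good p (10000 * b) F x →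
    ∀ g : Fin 50 → SL2 F,
    (1 / 3 : ℝ) ^ 16399 / 2 ≤ (1 / 2) * l1 (cpow (muR (p := p) (lampL (p := p) x 401 b) x (1 / (50 * ((b : ℝ) + 1))) g)
      (16399 * b)) := by
  have hp1 : (1 : ℝ) < p := by exact_mod_cast (Fact.out : p.Prime).one_lt
  have hp0 : (0 : ℝ) < p := by linarith
  have hlim : Tendsto (fun b : ℕ => 2 * ((p : ℝ)⁻¹) ^ b) atTop (𝓝 (2 * 0)) := by
    apply Tendsto.const_mul
    exact tendsto_pow_atTop_nhds_zero_of_lt_one (by positivity) (inv_lt_one_of_one_lt₀ hp1)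
  rw [mul_zero] at hlim
  have hc : (0 : ℝ) < (1 / 3 : ℝ) ^ 16399 / 2 := by positivity
  filter_upwards [hlim.eventually_lt_const hc, eventually_ge_atTop 1] with b hb hb1
  intro F _ _ _ _ x hg g
  have h1 := hN p F x 401 b (by norm_num) hb1 50 (1 / (50 * ((b : ℝ) + 1))) g (by positivity)
    (by have h9 := e5 b; have h8 : (0 : ℝ) ≤ (b : ℝ) / (b + 1) := by positivity
        linarith) (16399 * b) (by omega)
  rw [e5 b] at h1
  obtain ⟨hc1, _, hc3⟩ := hC F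
  have h2 : (p : ℝ) ^ (3 * (16399 * b) + 2 * (401 * b)) / (Fintype.card (Gp F) : ℝ) ≤ 2 * ((p : ℝ)⁻¹) ^ b := by
    have h3 : (p : ℝ) ^ (50000 * b) ≤ 2 * (Fintype.card (Gp F) : ℝ) := by
      have h4 : p ^ (50000 * b) ≤ 2 * Fintype.card (Gp F) := by
        rw [hc3, hg.card]
        rw [hg.card] at hc1
        calc p ^ (50000 * b) = (p ^ (10000 * b)) ^ 2 * (p ^ (10000 * b)) ^ 3 := by
              rw [← pow_mul, ← pow_mul, ← pow_add]; congr 1; ring
          _ ≤ (p ^ (10000 * b)) ^ 2 * (2 * Fintype.card (SL2 F)) := Nat.mul_le_mul_left _ hc1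
          _ = 2 * ((p ^ (10000 * b)) ^ 2 * Fintype.card (SL2 F)) := by ring
      exact_mod_cast h4
    have h5 : (0 : ℝ) < (Fintype.card (Gp F) : ℝ) := by
      exact_mod_cast Fintype.card_pos
    rw [div_le_iff₀ h5]
    have h6 : (p : ℝ) ^ (3 * (16399 * b) + 2 * (401 * b)) = ((p : ℝ)⁻¹) ^ b * (p : ℝ) ^ (50000 * b) := by
      have e : 50000 * b = b + (3 * (16399 * b) + 2 * (401 * b)) := by ring
      rw [e]
      generalize 3 * (16399 * b) + 2 * (401 * b) = m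
      rw [pow_add, ← mul_assoc, ← mul_pow, inv_mul_cancel₀ hp0.ne', one_pow, one_mul]
    rw [h6]
    calc ((p : ℝ)⁻¹) ^ b * (p : ℝ) ^ (50000 * b) ≤ ((p : ℝ)⁻¹) ^ b * (2 * (Fintype.card (Gp F) : ℝ)) := by
          apply mul_le_mul_of_nonneg_left h3 (by positivity)
      _ = 2 * ((p : ℝ)⁻¹) ^ b * (Fintype.card (Gp F) : ℝ) := by ring
  have h7 := e4 b 16399
  generalize (1 / 3 : ℝ) ^ 16399 = c3 at *
  generalize ((b : ℝ) / (b + 1)) ^ (16399 * b) = c4 at *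
  linarith

theorem muQ_ev (hMix : S_MIX) (hGap : S_GAPQ) (hS : S_SYM) (hMu : S_MUQ) (hR : S_RETQ) (hC : S_CSL) (p : ℕ)
    [Fact p.Prime] (hp : 2 ^ 1000 ≤ p) : ∀ᶠ b : ℕ in atTop,
    ∀ (F : Type) [Field F] [Fintype F] [DecidableEq F] [Algebra (ZMod p) F] (x : F), Good p (10000 * b) F x →
    l1 (cpow (muQ (p := p) x) (15500 * b)) ≤ 1 / 2 := by
  have hp1 : (1 : ℝ) < p := by exact_mod_cast (Fact.out : p.Prime).one_lt
  have hp0 : (0 : ℝ) < p := by linarith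
  obtain ⟨k0, hk0⟩ := hGap p hp
  have hlim : Tendsto (fun b : ℕ => 17 * (p : ℝ) ^ 3 * ((30000 * (b : ℝ) + 1) * (1 / 2) ^ b)) atTop
      (𝓝 (17 * (p : ℝ) ^ 3 * 0)) := by
    apply Tendsto.const_mul
    have h1 : Tendsto (fun b : ℕ => (b : ℝ) * (1 / 2 : ℝ) ^ b) atTop (𝓝 0) :=
      tendsto_self_mul_const_pow_of_lt_one (by norm_num) (by norm_num)
    have h2 : Tendsto (fun b : ℕ => (1 / 2 : ℝ) ^ b) atTop (𝓝 0) :=
      tendsto_pow_atTop_nhds_zero_of_lt_one (by norm_num) (by norm_num)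
    have h3 := (h1.const_mul 30000).add h2
    simp only [mul_zero, add_zero] at h3
    refine h3.congr (fun b => ?_)
    ring
  rw [mul_zero] at hlim
  filter_upwards [hlim.eventually_lt_const (show (0 : ℝ) < 1 / 4 by norm_num), eventually_ge_atTop k0,
    eventually_ge_atTop 1] with b hb hbk hb1
  intro F _ _ _ _ x hg
  have h1 := hMix (SL2 F) (muQ (p := p) x) ((1 / 2) ^ 600) (hS p F ⊤ x).2.2.2.1 (hS p F ⊤ x).2.2.2.2.1
    (hS p F ⊤ x).2.2.2.2.2 (by positivity)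
    (hk0 (10000 * b) (by omega) (Dvd.intro (5000 * b) (by ring)) F x hg) (500 * b) (15000 * b)
  have e1 : 500 * b + 15000 * b = 15500 * b := by ring
  rw [e1, hMu p F x] at h1
  have h2 := hR p (10000 * b) F x hg (15000 * b) (by omega)
  obtain ⟨_, hc2, _⟩ := hC F
  set N : ℕ := Nat.card {h : Fin (2 * (15000 * b)) → NilT p // pw x (List.ofFn h) = 1} with hNdef
  have h3 : (N : ℝ) * (p : ℝ) ^ (3 * (10000 * b)) ≤ 17 * (2 * (15000 * (b : ℝ)) + 1) * 256 ^ (15000 * b)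
      * (p : ℝ) ^ 3 * (p : ℝ) ^ (4 * (15000 * b)) := by
    exact_mod_cast h2
  have h4 : (Fintype.card (SL2 F) : ℝ) ≤ (p : ℝ) ^ (3 * (10000 * b)) := by
    have h5 : Fintype.card (SL2 F) ≤ p ^ (3 * (10000 * b)) := by
      refine hc2.trans ?_
      rw [hg.card, ← pow_mul]
      apply le_of_eq
      congr 1
      ring
    exact_mod_cast h5
  have h6 : l1 (cpow (muQ (p := p) x) (15500 * b)) ^ 2 ≤ 1 / 4 := by
    refine h1.trans ?_
    have h7 : ((p : ℝ) ^ 2) ^ (2 * (15000 * b)) = (p : ℝ) ^ (4 * (15000 * b)) := by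
      rw [← pow_mul]; congr 1; ring
    rw [h7]
    have hP : (0 : ℝ) < (p : ℝ) ^ (4 * (15000 * b)) := by positivity
    have h8 : (Fintype.card (SL2 F) : ℝ) * ((1 / 2) ^ 600) ^ (500 * b) * ((N : ℝ) / (p : ℝ) ^ (4 * (15000 * b)))
        ≤ ((1 / 2) ^ 600) ^ (500 * b) * ((N : ℝ) * (p : ℝ) ^ (3 * (10000 * b)) / (p : ℝ) ^ (4 * (15000 * b))) := by
      have : (Fintype.card (SL2 F) : ℝ) * ((1 / 2) ^ 600) ^ (500 * b) * ((N : ℝ) / (p : ℝ) ^ (4 * (15000 * b)))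
          = ((1 / 2) ^ 600) ^ (500 * b) * ((N : ℝ) * (Fintype.card (SL2 F) : ℝ) / (p : ℝ) ^ (4 * (15000 * b))) := by ring
      rw [this]
      gcongr
    refine h8.trans ?_
    have h9 : (N : ℝ) * (p : ℝ) ^ (3 * (10000 * b)) / (p : ℝ) ^ (4 * (15000 * b))
        ≤ 17 * (2 * (15000 * (b : ℝ)) + 1) * 256 ^ (15000 * b) * (p : ℝ) ^ 3 := by
      rw [div_le_iff₀ hP]
      exact h3
    have h10 : ((1 / 2 : ℝ) ^ 600) ^ (500 * b) * 256 ^ (15000 * b) ≤ (1 / 2) ^ b := by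
      have e2 : 15000 * b = 30 * (500 * b) := by ring
      rw [e2, pow_mul (256 : ℝ) 30 (500 * b), ← mul_pow]
      have h11 : ((1 / 2 : ℝ) ^ 600 * 256 ^ 30) ≤ 1 / 2 := by
        have h12 : (1 / 2 : ℝ) ^ 600 ≤ (1 / 2) ^ 250 := pow_le_pow_of_le_one (by norm_num) (by norm_num) (by norm_num)
        calc (1 / 2 : ℝ) ^ 600 * 256 ^ 30 ≤ (1 / 2) ^ 250 * 256 ^ 30 := by gcongr
          _ ≤ 1 / 2 := by norm_num
      calc ((1 / 2 : ℝ) ^ 600 * 256 ^ 30) ^ (500 * b) ≤ (1 / 2) ^ (500 * b) :=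
            pow_le_pow_left₀ (by positivity) h11 _
        _ ≤ (1 / 2) ^ b := pow_le_pow_of_le_one (by norm_num) (by norm_num) (by omega)
    calc ((1 / 2 : ℝ) ^ 600) ^ (500 * b) * ((N : ℝ) * (p : ℝ) ^ (3 * (10000 * b)) / (p : ℝ) ^ (4 * (15000 * b)))
        ≤ ((1 / 2 : ℝ) ^ 600) ^ (500 * b) * (17 * (2 * (15000 * (b : ℝ)) + 1) * 256 ^ (15000 * b) * (p : ℝ) ^ 3) := by
          gcongr
      _ = (17 * (p : ℝ) ^ 3 * (30000 * (b : ℝ) + 1)) * (((1 / 2 : ℝ) ^ 600) ^ (500 * b) * 256 ^ (15000 * b)) := by ring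
      _ ≤ (17 * (p : ℝ) ^ 3 * (30000 * (b : ℝ) + 1)) * (1 / 2) ^ b := by
          gcongr
      _ ≤ 1 / 4 := by
          have := hb.le
          linarith [this, show (17 * (p : ℝ) ^ 3 * (30000 * (b : ℝ) + 1)) * (1 / 2) ^ b
            = 17 * (p : ℝ) ^ 3 * ((30000 * (b : ℝ) + 1) * (1 / 2) ^ b) by ring]
  by_contra h
  push Not at h
  nlinarith

/-- The constant. -/
noncomputable def C0 : ℝ := (1 / 3) ^ 15850 * (1 / 100) ^ 50

theorem C0_pos : 0 < C0 := by unfold C0; positivity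

theorem fast_ev (hW : S_WIN) (hF : S_FASTB) (hMix : S_MIX) (hGap : S_GAPQ) (hS : S_SYM) (hMu : S_MUQ) (hR : S_RETQ)
    (hC : S_CSL) (p : ℕ) [Fact p.Prime] (hp : 2 ^ 1000 ≤ p) : ∀ᶠ b : ℕ in atTop,
    ∀ (F : Type) [Field F] [Fintype F] [DecidableEq F] [Algebra (ZMod p) F] (x : F), Good p (10000 * b) F x →
    ∃ g : Fin 50 → SL2 F,
    (1 / 2) * l1 (cpow (muR (p := p) (lampL (p := p) x 401 b) x (1 / (50 * ((b : ℝ) + 1))) g) (15850 * b))
      ≤ 1 - C0 / 2 := by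
  have hp1 : (1 : ℝ) < p := by exact_mod_cast (Fact.out : p.Prime).one_lt
  have hp0 : (0 : ℝ) < p := by linarith
  have hpr : (2 ^ 1000 : ℝ) ≤ p := by exact_mod_cast hp
  have hq : (1024 : ℝ) / p < 1 := by
    rw [div_lt_one hp0]
    refine lt_of_lt_of_le ?_ hpr
    have h0 : (2 : ℝ) ^ 10 < 2 ^ 1000 := pow_lt_pow_right₀ (by norm_num) (by norm_num)
    calc (1024 : ℝ) = 2 ^ 10 := by norm_num
      _ < 2 ^ 1000 := h0
  have hlim : Tendsto (fun b : ℕ => 2 * (50 * ((1024 : ℝ) / p) ^ b + ((p : ℝ)⁻¹) ^ b)) atTop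
      (𝓝 (2 * (50 * 0 + 0))) := by
    apply Tendsto.const_mul
    apply Tendsto.add
    · apply Tendsto.const_mul
      exact tendsto_pow_atTop_nhds_zero_of_lt_one (by positivity) hq
    · exact tendsto_pow_atTop_nhds_zero_of_lt_one (by positivity) (inv_lt_one_of_one_lt₀ hp1)
  rw [mul_zero, add_zero, mul_zero] at hlim
  filter_upwards [hlim.eventually_lt_const (show (0 : ℝ) < 1 / 2 by norm_num), eventually_ge_atTop 1,
    muQ_ev hMix hGap hS hMu hR hC p hp] with b hb hb1 hmq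
  intro F _ _ _ _ x hg
  obtain ⟨g, hgg⟩ := hF p (10000 * b) F x hg (lampL (p := p) x 401 b) 401 b (by norm_num) hb1 (by omega) (le_refl _)
    (15500 * b) 50
  refine ⟨g, ?_⟩
  have hρ0 : (0 : ℝ) ≤ 1 / (50 * ((b : ℝ) + 1)) := by positivity
  have hb0 : (0 : ℝ) < b := by exact_mod_cast hb1
  have hx0 : (0 : ℝ) ≤ (b : ℝ) / (b + 1) := by positivity
  have hx1 : (b : ℝ) / (b + 1) ≤ 1 := by
    rw [div_le_one (by positivity)]
    linarith
  have hw := hW p F x (lampL (p := p) x 401 b) (15500 * b) 50 b (by omega) hb1 (1 / (50 * ((b : ℝ) + 1))) g hρ0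
    (by have h9 := e5 b; linarith)
  rw [e5 b] at hw
  have e1 : 15500 * b + 7 * b * 50 = 15850 * b := by ring
  rw [e1] at hw
  set nu := l1 (fun y : Gp F => 1 / (Fintype.card ((Fin (15500 * b) → NilT p) × (Fin 50 → Fin b × (Fin (7 * b - 1) → NilT p))) : ℝ)
            * ∑ a : (Fin (15500 * b) → NilT p) × (Fin 50 → Fin b × (Fin (7 * b - 1) → NilT p)),
              mL (lampL (p := p) x 401 b) (wl x g a) y) with hnu
  have h1 : nu ≤ 1 := by
    refine hgg.trans ?_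
    have h2 := hmq F x hg
    have h3 : (p : ℝ) ^ (2 * (10000 * b)) / (p : ℝ) ^ (401 * b * 50) ≤ ((p : ℝ)⁻¹) ^ b := by
      rw [div_le_iff₀ (by positivity)]
      have e2 : 401 * b * 50 = b + (2 * (10000 * b) + 49 * b) := by ring
      have e6 : 2 * (10000 * b) ≤ 2 * (10000 * b) + 49 * b := by omega
      rw [e2]
      revert e6
      generalize 2 * (10000 * b) = m1
      generalize m1 + 49 * b = m2
      intro e6
      rw [pow_add (p : ℝ) b, ← mul_assoc, ← mul_pow, inv_mul_cancel₀ hp0.ne', one_pow, one_mul]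
      exact pow_le_pow_right₀ hp1.le e6
    have h4 : 2 * ((50 : ℕ) * ((1024 : ℝ) / p) ^ b + (p : ℝ) ^ (2 * (10000 * b)) / (p : ℝ) ^ (401 * b * 50)) ≤ 1 / 2 := by
      push_cast
      linarith
    linarith
  set c0 := ((b : ℝ) / (b + 1)) ^ (15500 * b + (7 * b - 1) * 50) * ((b : ℝ) * (1 / (50 * ((b : ℝ) + 1)))) ^ 50 with hc0
  have h5 : C0 ≤ c0 := by
    rw [hc0]
    unfold C0
    apply mul_le_mul
    · refine (e4 b 15850).trans ?_
      exact pow_le_pow_of_le_one hx0 hx1 (by omega)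
    · apply pow_le_pow_left₀ (by norm_num)
      rw [mul_one_div, div_le_div_iff₀ (by norm_num) (by positivity)]
      have : (1 : ℝ) ≤ b := by exact_mod_cast hb1
      linarith
    · positivity
    · positivity
  have h6 : 0 ≤ c0 := le_trans C0_pos.le h5
  nlinarith

end Pool.Agent.Y171.CE
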