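import Pool.Agent.Y171.CE.Asm2

/-!
Project CE (helper171): assembly, part 3: the family.
-/

set_option autoImplicit false
set_option linter.unusedSectionVars false

open Polynomial Matrix Filter Topology
open scoped Pointwise

namespace Pool.Agent.Y171.CE

/-- A field with a generator and good rare elements. -/
structure Pk (p b : ℕ) [Fact p.Prime] where
  F : Type
  fld : Field F
  fin : Fintype F
  dec : DecidableEq F
  alg : Algebra (ZMod p) F
  x : F
  good : Good p (10000 * b) F x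
  g : Fin 50 → SL2 F
  fast : (1 / 2) * l1 (cpow (muR (p := p) (lampL (p := p) x 401 b) x (1 / (50 * ((b : ℝ) + 1))) g) (15850 * b))
      ≤ 1 - C0 / 2

attribute [instance] Pk.fld Pk.fin Pk.dec Pk.alg

theorem l1_nonneg {G : Type} [Fintype G] (f : G → ℝ) : 0 ≤ l1 f := Finset.sum_nonneg (fun _ _ => abs_nonneg _)

theorem assemble (hNil : S_NIL) (hMass : S_MASS) (hSlow : S_SLOW) (hCsl : S_CSL) (hWin : S_WIN) (hFast : S_FASTB)
    (hMix : S_MIX) (hGapQ : S_GAPQ) (hGapG : S_GAPG) (hSym : S_SYM) (hMuQ : S_MUQ) (hRetq : S_RETQ) (hEx : S_EX)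
    (hLcard : S_LCARD) (hExp : S_EXP) (hMono : S_MONO) (hNocut : S_NOCUT) :
    ¬ (∀ r : ℝ, 0 < r →
  ∀ (G : ℕ → Type) [∀ n, Group (G n)] [∀ n, Fintype (G n)] [∀ n, DecidableEq (G n)]
    (S : ∀ n, Finset (G n)) (p : ∀ n, G n → ℝ),
    Tendsto (fun n => Fintype.card (G n)) atTop atTop →
    (∀ n, (1 : G n) ∈ S n) →
    (∀ n, ∀ s ∈ S n, s⁻¹ ∈ S n) →
    (∃ c : ℝ, 0 < c ∧ ∀ n, ∀ A : Finset (G n),
        2 * A.card ≤ Fintype.card (G n) →
        c * (A.card : ℝ) ≤ (((A * S n) \ A).card : ℝ)) →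
    (∀ n, ∀ g : G n, 0 ≤ p n g) →
    (∀ n, ∑ g : G n, p n g = 1) →
    (∀ n, ∀ s ∈ S n, 1 / r ≤ p n s) →
    (∀ n, ((Finset.univ.filter (fun g : G n => p n g ≠ 0)).card : ℝ) ≤ r) →
    ∃ t : ℕ → ℝ, Tendsto t atTop atTop ∧
      ∀ ε : ℝ, 0 < ε → ε < 1 →
        Tendsto (fun n => (1 / 2 : ℝ) * ∑ g : G n,
          |(fun q : G n → ℝ => fun x : G n => ∑ h : G n, q h * p n (h⁻¹ * x))^[⌈(1 + ε) * t n⌉₊]
              (fun x : G n => if x = 1 then (1 : ℝ) else 0) g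
            - 1 / (Fintype.card (G n) : ℝ)|) atTop (𝓝 0) ∧
        Tendsto (fun n => (1 / 2 : ℝ) * ∑ g : G n,
          |(fun q : G n → ℝ => fun x : G n => ∑ h : G n, q h * p n (h⁻¹ * x))^[⌊(1 - ε) * t n⌋₊]
              (fun x : G n => if x = 1 then (1 : ℝ) else 0) g
            - 1 / (Fintype.card (G n) : ℝ)|) atTop (𝓝 1)) := by
  intro hall
  obtain ⟨p, hple, hpp⟩ := Nat.exists_infinite_primes (2 ^ 1000)
  have : Fact p.Prime := ⟨hpp⟩
  obtain ⟨k1, hk1⟩ := hGapG p hple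
  have hev := (slow_ev hSlow hCsl p).and ((fast_ev hWin hFast hMix hGapQ hSym hMuQ hRetq hCsl p hple).and
    (eventually_ge_atTop (k1 + 1)))
  obtain ⟨b0, hb0⟩ := eventually_atTop.mp hev
  have hb0k : k1 + 1 ≤ b0 := (hb0 b0 (le_refl _)).2.2
  have hpk : ∀ n : ℕ, Nonempty (Pk p (n + b0)) := by
    intro n
    obtain ⟨F, i1, i2, i3, i4, x, hg⟩ := hEx p (10000 * (n + b0)) (by omega)
    obtain ⟨g, hgf⟩ := (hb0 (n + b0) (by omega)).2.1 F x hg
    exact ⟨⟨F, i1, i2, i3, i4, x, hg, g, hgf⟩⟩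
  have P : ∀ n : ℕ, Pk p (n + b0) := fun n => Classical.choice (hpk n)
  have hp1 : (1 : ℝ) < p := by exact_mod_cast hpp.one_lt
  have hp0 : (0 : ℝ) < p := by linarith
  set c : ℕ := p ^ (2 * 401) with hc
  have hcpos : (0 : ℝ) < (c : ℝ) := by
    have : 0 < c := by rw [hc]; exact pow_pos hpp.pos _
    exact_mod_cast this
  set r : ℝ := (2 * (p : ℝ) ^ 2 + 50) * (c : ℝ) ^ 2 with hr
  have hr0 : 0 < r := by positivity
  have hL : ∀ n, Nat.card (lampL (p := p) (P n).x 401 (n + b0)) ≤ c := fun n => hLcard p (P n).F (P n).x 401 (n + b0)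
  have hρ0 : ∀ n : ℕ, (0 : ℝ) ≤ 1 / (50 * (((n + b0 : ℕ) : ℝ) + 1)) := fun n => by positivity
  have hρ1 : ∀ n : ℕ, ((50 : ℕ) : ℝ) * (1 / (50 * (((n + b0 : ℕ) : ℝ) + 1))) ≤ 1 / 2 := by
    intro n
    have h1 : (1 : ℝ) ≤ ((n + b0 : ℕ) : ℝ) := by
      have : 1 ≤ n + b0 := by omega
      exact_mod_cast this
    have h2 : ((50 : ℕ) : ℝ) * (1 / (50 * (((n + b0 : ℕ) : ℝ) + 1))) = 1 / (((n + b0 : ℕ) : ℝ) + 1) := by
      have : ((n + b0 : ℕ) : ℝ) + 1 ≠ 0 := by positivity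
      field_simp
      norm_num
    rw [h2]
    apply one_div_le_one_div_of_le <;> linarith
  have hmono : ∀ n s t : ℕ, s ≤ t →
      (1 / 2 : ℝ) * l1 (cpow (muR (p := p) (lampL (p := p) (P n).x 401 (n + b0)) (P n).x (1 / (50 * (((n + b0 : ℕ) : ℝ) + 1))) (P n).g) t)
      ≤ (1 / 2 : ℝ) * l1 (cpow (muR (p := p) (lampL (p := p) (P n).x 401 (n + b0)) (P n).x (1 / (50 * (((n + b0 : ℕ) : ℝ) + 1))) (P n).g) s) := by
    intro n s t hst
    have := hMono (Gp (P n).F) (muR (p := p) (lampL (p := p) (P n).x 401 (n + b0)) (P n).x (1 / (50 * (((n + b0 : ℕ) : ℝ) + 1))) (P n).g)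
      (muR_nonneg _ _ _ _ (hρ0 n) (by linarith [hρ1 n])) (muR_sum hNil hMass _ _ _ _) s t hst
    linarith
  have hfin := hNocut (fun n t => (1 / 2 : ℝ) * l1 (cpow (muR (p := p) (lampL (p := p) (P n).x 401 (n + b0)) (P n).x
      (1 / (50 * (((n + b0 : ℕ) : ℝ) + 1))) (P n).g) t)) (min (C0 / 2) ((1 / 3 : ℝ) ^ 16399 / 2)) 15850 16399 b0
      (lt_min (half_pos C0_pos) (by positivity)) (by norm_num) (by norm_num) hmono
      (Eventually.of_forall (fun n => ((P n).fast).trans (by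
        have := min_le_left (C0 / 2) ((1 / 3 : ℝ) ^ 16399 / 2)
        linarith)))
      (Eventually.of_forall (fun n => (min_le_right _ _).trans
        ((hb0 (n + b0) (by omega)).1 (P n).F (P n).x (P n).good (P n).g)))
  apply hfin
  have h := hall r hr0 (fun n => Gp (P n).F) (fun n => SS (p := p) (lampL (p := p) (P n).x 401 (n + b0)) (P n).x)
    (fun n => muR (p := p) (lampL (p := p) (P n).x 401 (n + b0)) (P n).x (1 / (50 * (((n + b0 : ℕ) : ℝ) + 1))) (P n).g)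
    ?_ ?_ ?_ ?_ ?_ ?_ ?_ ?_
  · exact h
  · apply tendsto_atTop_mono _ tendsto_id
    intro n
    have h1 := (hCsl (P n).F).2.2
    have h2 : 0 < Fintype.card (SL2 (P n).F) := Fintype.card_pos
    have h3 : n ≤ Fintype.card (P n).F := by
      rw [(P n).good.card]
      calc n ≤ 10000 * (n + b0) := by omega
        _ ≤ p ^ (10000 * (n + b0)) := (Nat.lt_pow_self hpp.one_lt).le
    change n ≤ Fintype.card (Gp (P n).F)
    rw [h1]
    calc n ≤ Fintype.card (P n).F := h3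
      _ ≤ Fintype.card (P n).F ^ 2 := Nat.le_self_pow (by norm_num) _
      _ ≤ Fintype.card (P n).F ^ 2 * Fintype.card (SL2 (P n).F) := Nat.le_mul_of_pos_right _ h2
  · exact fun n => one_mem_SS (p := p) _ _
  · exact fun n s hs => inv_mem_SS (p := p) _ _ s hs
  · refine ⟨1 / 4, by norm_num, fun n A hA => ?_⟩
    have h1 := expan (p := p) hExp hSym (lampL (p := p) (P n).x 401 (n + b0)) (P n).x
      (hk1 (10000 * (n + b0)) (by omega) (Dvd.intro (1250 * (n + b0)) (by ring)) (P n).F (P n).x (P n).good _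
        (lamp_one_le (p := p) _ _ _ (by norm_num))) A hA
    refine h1.trans (le_of_eq ?_)
    congr 2
    ext y
    simp only [Finset.mem_filter, Finset.mem_univ, true_and, Finset.mem_sdiff, Finset.mem_mul]
    exact and_comm
  · exact fun n g => muR_nonneg _ _ _ _ (hρ0 n) (by linarith [hρ1 n]) g
  · exact fun n => muR_sum hNil hMass _ _ _ _
  · intro n s hs
    refine le_trans ?_ (muR_lower (p := p) _ _ _ _ (hρ0 n) (hρ1 n) c (hL n) s hs)
    apply one_div_le_one_div_of_le (by positivity)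
    rw [hr]
    have : (0 : ℝ) < (c : ℝ) ^ 2 := by positivity
    nlinarith
  · intro n
    have h1 := muR_supp (p := p) hNil (lampL (p := p) (P n).x 401 (n + b0)) (P n).x (1 / (50 * (((n + b0 : ℕ) : ℝ) + 1))) (P n).g c (hL n)
    have h2 : (((p ^ 2 + 50) * c ^ 2 : ℕ) : ℝ) ≤ r := by
      rw [hr]
      push_cast
      have : (0 : ℝ) < (c : ℝ) ^ 2 := by positivity
      have h3 : (0 : ℝ) < (p : ℝ) ^ 2 := by positivity
      nlinarith
    refine le_trans ?_ h2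
    refine le_trans (le_of_eq ?_) (Nat.cast_le.mpr h1)
    congr 2

end Pool.Agent.Y171.CE
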