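import Mathlib

/-!
Project CE (helper171): definitions for the negative answer to MP_243c22_pr (frozen statement S19214).

`F` is a finite field of characteristic `p` with a generator `x`, `q = |F| = p ^ k`;
`Gp F` is the group `F ^ 2 ⋊ SL_2(F)`.
-/

set_option autoImplicit false

open Polynomial Matrix

namespace Pool.Agent.Y171.CE

/-- Nilpotent `2 x 2` matrices over `F_p`: `(a, b, c)` stands for the matrix with rows `(a, b)`, `(c, -a)`. -/
def NilT (p : ℕ) : Type := {t : ZMod p × ZMod p × ZMod p // t.1 * t.1 + t.2.1 * t.2.2 = 0}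

instance (p : ℕ) : DecidableEq (NilT p) := inferInstanceAs (DecidableEq {t : ZMod p × ZMod p × ZMod p // t.1 * t.1 + t.2.1 * t.2.2 = 0})

instance (p : ℕ) [NeZero p] : Fintype (NilT p) := inferInstanceAs (Fintype {t : ZMod p × ZMod p × ZMod p // t.1 * t.1 + t.2.1 * t.2.2 = 0})

abbrev SL2 (R : Type) [CommRing R] : Type := Matrix.SpecialLinearGroup (Fin 2) R

/-- The matrix `1 + x N`. -/
def st {p : ℕ} {R : Type} [CommRing R] [Algebra (ZMod p) R] (x : R) (N : NilT p) : SL2 R :=
  ⟨!![1 + x * algebraMap (ZMod p) R N.1.1, x * algebraMap (ZMod p) R N.1.2.1;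
      x * algebraMap (ZMod p) R N.1.2.2, 1 - x * algebraMap (ZMod p) R N.1.1], by
    have h := N.2
    have h2 : algebraMap (ZMod p) R N.1.1 * algebraMap (ZMod p) R N.1.1
        + algebraMap (ZMod p) R N.1.2.1 * algebraMap (ZMod p) R N.1.2.2 = 0 := by
      rw [← map_mul, ← map_mul, ← map_add, h, map_zero]
    rw [Matrix.det_fin_two_of]
    linear_combination (- x ^ 2) * h2⟩

/-- Products of steps. -/
def pw {p : ℕ} {R : Type} [CommRing R] [Algebra (ZMod p) R] (x : R) (l : List (NilT p)) : SL2 R :=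
  (l.map (st x)).prod

/-- Degree of a matrix of polynomials: the largest degree of an entry. -/
noncomputable def dg {p : ℕ} (γ : SL2 (ZMod p)[X]) : ℕ :=
  Finset.univ.sup (fun i : Fin 2 => Finset.univ.sup (fun j : Fin 2 => (γ.1 i j).natDegree))

/-- The group `F ^ 2 ⋊ SL_2(F)`. -/
@[ext] structure Gp (F : Type) [Field F] where
  v : Fin 2 → F
  m : SL2 F

/-- The action of `SL_2(F)` on `F ^ 2`. -/
def act {F : Type} [Field F] (g : SL2 F) : (Fin 2 → F) →+ (Fin 2 → F) where
  toFun v := g.1.mulVec v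
  map_zero' := Matrix.mulVec_zero _
  map_add' := Matrix.mulVec_add _

theorem act_mul {F : Type} [Field F] (g h : SL2 F) (v : Fin 2 → F) : act (g * h) v = act g (act h v) := by
  change (g * h).1.mulVec v = g.1.mulVec (h.1.mulVec v)
  rw [Matrix.mulVec_mulVec]
  rfl

theorem act_one {F : Type} [Field F] (v : Fin 2 → F) : act (1 : SL2 F) v = v := by
  simp [act]

instance {F : Type} [Field F] : Group (Gp F) where
  mul a b := ⟨a.v + act a.m b.v, a.m * b.m⟩
  one := ⟨0, 1⟩
  inv a := ⟨- act a.m⁻¹ a.v, a.m⁻¹⟩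
  mul_assoc a b c := by
    refine Gp.ext ?_ (mul_assoc _ _ _)
    change (a.v + act a.m b.v) + act (a.m * b.m) c.v = a.v + act a.m (b.v + act b.m c.v)
    rw [act_mul, map_add, add_assoc]
  one_mul a := by
    refine Gp.ext ?_ (one_mul _)
    change 0 + act 1 a.v = a.v
    rw [act_one, zero_add]
  mul_one a := by
    refine Gp.ext ?_ (mul_one _)
    change a.v + act a.m 0 = a.v
    rw [map_zero, add_zero]
  inv_mul_cancel a := by
    refine Gp.ext ?_ (inv_mul_cancel _)
    change - act a.m⁻¹ a.v + act a.m⁻¹ a.v = 0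
    exact neg_add_cancel _

theorem Gp.mul_v {F : Type} [Field F] (a b : Gp F) : (a * b).v = a.v + act a.m b.v := rfl
theorem Gp.mul_m {F : Type} [Field F] (a b : Gp F) : (a * b).m = a.m * b.m := rfl
theorem Gp.one_v {F : Type} [Field F] : (1 : Gp F).v = 0 := rfl
theorem Gp.one_m {F : Type} [Field F] : (1 : Gp F).m = 1 := rfl
theorem Gp.inv_v {F : Type} [Field F] (a : Gp F) : (a⁻¹).v = - act a.m⁻¹ a.v := rfl
theorem Gp.inv_m {F : Type} [Field F] (a : Gp F) : (a⁻¹).m = a.m⁻¹ := rfl

/-- `Gp F` as a product. -/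
def Gp.equiv (F : Type) [Field F] : Gp F ≃ (Fin 2 → F) × SL2 F where
  toFun a := (a.v, a.m)
  invFun a := ⟨a.1, a.2⟩
  left_inv _ := rfl
  right_inv _ := rfl

instance {F : Type} [Field F] [DecidableEq F] : DecidableEq (Gp F) :=
  (Gp.equiv F).decidableEq

instance {F : Type} [Field F] [Fintype F] [DecidableEq F] : Fintype (Gp F) :=
  Fintype.ofEquiv _ (Gp.equiv F).symm

/-- The group generated by the translates of the lamps `L` along the path of a list:
`L + h_1 L + h_1 h_2 L + ... + h_1 ... h_t L`. -/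
def US {F : Type} [Field F] (L : AddSubgroup (Fin 2 → F)) : List (SL2 F) → AddSubgroup (Fin 2 → F)
  | [] => L
  | g :: l => L ⊔ (US L l).map (act g)

/-- The lamps: all `x ^ (i b) e` with `i < I` and `e` a vector over `F_p`. -/
def lampL {p : ℕ} {F : Type} [Field F] [Algebra (ZMod p) F] (x : F) (I b : ℕ) : AddSubgroup (Fin 2 → F) :=
  AddSubgroup.closure {v | ∃ i : ℕ, i < I ∧ ∃ e : Fin 2 → ZMod p,
    v = fun t => x ^ (i * b) * algebraMap (ZMod p) F (e t)}

/-- The measure of a list: uniform on `US L l`, times the point mass at the product. -/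
noncomputable def mL {F : Type} [Field F] (L : AddSubgroup (Fin 2 → F)) (l : List (SL2 F)) (g : Gp F) : ℝ := by
  classical
  exact if g.m = l.prod ∧ g.v ∈ US L l then 1 / (Nat.card (US L l) : ℝ) else 0

/-- Convolution. -/
def conv {G : Type} [Group G] [Fintype G] (q μ : G → ℝ) : G → ℝ := fun x => ∑ h : G, q h * μ (h⁻¹ * x)

/-- Convolution powers, in the form of the frozen statement. -/
def cpow {G : Type} [Group G] [Fintype G] [DecidableEq G] (μ : G → ℝ) (t : ℕ) : G → ℝ :=
  (fun q : G → ℝ => fun x : G => ∑ h : G, q h * μ (h⁻¹ * x))^[t] (fun x : G => if x = 1 then (1 : ℝ) else 0)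

/-- The operator of the walk on complex functions. -/
def T {G : Type} [Group G] [Fintype G] (μ : G → ℝ) (f : G → ℂ) : G → ℂ := fun x => ∑ s : G, (μ s : ℂ) * f (x * s)

/-- The sum of squares. -/
noncomputable def sq {G : Type} [Fintype G] (f : G → ℂ) : ℝ := ∑ x : G, ‖f x‖ ^ 2

/-- Twice the distance to uniform. -/
noncomputable def l1 {G : Type} [Fintype G] (f : G → ℝ) : ℝ := ∑ x : G, |f x - 1 / (Fintype.card G : ℝ)|

/-- The mixture of the measures of one-letter lists. -/
noncomputable def mix {ι : Type} [Fintype ι] {F : Type} [Field F] (L : AddSubgroup (Fin 2 → F)) (s : ι → SL2 F)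
    (ω : ι → ℝ) : Gp F → ℝ := fun g => ∑ i : ι, ω i * mL L [s i] g

/-- The walk without rare steps, on `Gp F`. -/
noncomputable def mu0 {p : ℕ} [NeZero p] {F : Type} [Field F] [Algebra (ZMod p) F] (L : AddSubgroup (Fin 2 → F)) (x : F) :
    Gp F → ℝ := mix L (fun N : NilT p => st x N) (fun _ => 1 / (p : ℝ) ^ 2)

/-- The walk without rare steps, on `SL_2(F)`. -/
noncomputable def muQ {p : ℕ} [NeZero p] {F : Type} [Field F] [DecidableEq F] [Algebra (ZMod p) F] (x : F) : SL2 F → ℝ :=
  fun M => ∑ N : NilT p, if st x N = M then 1 / (p : ℝ) ^ 2 else 0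

/-- The walk with rare steps. -/
noncomputable def muR {p : ℕ} [NeZero p] {F : Type} [Field F] [Algebra (ZMod p) F] (L : AddSubgroup (Fin 2 → F)) (x : F)
    {j : ℕ} (ρ : ℝ) (g : Fin j → SL2 F) : Gp F → ℝ :=
  mix L (Sum.elim (fun N : NilT p => st x N) g) (Sum.elim (fun _ => (1 - j * ρ) / (p : ℝ) ^ 2) (fun _ => ρ))

/-- `A_0, g_0, A_1, g_1, ..., g_{j-1}, A_j`. -/
def cat {Q : Type} {j : ℕ} (g : Fin j → Q) (A : Fin (j + 1) → List Q) : List Q :=
  A 0 ++ (List.ofFn (fun i : Fin j => g i :: A i.succ)).flatten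

end Pool.Agent.Y171.CE
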